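import Pool.Agent.Helper78_NDM.Stmts

/-!
# Module TR2 (squad NDM)
-/

set_option autoImplicit false
set_option linter.unusedVariables false
set_option linter.unusedSectionVars false

namespace Pool.Agent.NDM.H97

open PowerSeries Finset Pool.Agent.Helper6_Mono Pool.Agent.Helper32_OMP Pool.Agent.NDM

section

variable {k : Type} [Field k] {β : Type} {wβ : β → QZ}

theorem TT_congr (Y : Over k QZ β wβ) {wh : QZ} (h : NF Y.F wh) {I : Type} [Fintype I]
    {a a' : I → ℕ} {wt wt' : I → QZ} (ha : a = a') (hwt : wt = wt')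
    (hw : wh + ∑ i, a i • wt i = 0) (hw' : wh + ∑ i, a' i • wt' i = 0) :
    TT Y h a wt hw = TT Y h a' wt' hw' := by
  subst ha hwt
  rfl

end

theorem tr2 (hT : TorStmt) : Tr2Stmt := by
  intro k _ β wβ R _ L0 χ Y hY wu u P hP g e w he P' hP' g' e' w' he' h h'
  let a : Bool → ℕ := fun b => cond b e e'
  let wt : Bool → QZ := fun b => cond b w w'
  have hFT : FT (Y.times (P.prod P')).F := hY.prod (hP.prod hP')
  have hw : (wu + 0) + ∑ i, a i • wt i = 0 := by
    rw [Fintype.sum_bool]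
    show (wu + 0) + (e • w + e' • w') = 0
    rw [add_zero, ← add_assoc]
    exact h
  have h1 := hT k β wβ R L0 χ (Y.times (P.prod P')) hFT (wu + 0) (ug Y u (gg g g')) Bool a
    (fun b => by cases b; exacts [he', he]) wt hw
  have hg : gcdI a = Nat.gcd e e' := by
    unfold gcdI
    have : (Finset.univ : Finset Bool) = {true, false} := rfl
    rw [this, Finset.gcd_insert, Finset.gcd_singleton]
    show gcd e (normalize e') = _
    rw [normalize_eq]
    rfl
  have h2 : χ.χ (TT (Y.times (P.prod P')) (ug Y u (gg g g')) a wt hw)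
      = χ.χ (EE ((Y.times P).times (GF.line k w)) (ugx Y u P g e w) P' g' e' w' h) := by
    refine χ.iso (FT_TT hFT _ _ _ _) ?_
    refine OIso.mk' (fun S _ _ x => ⟨(((( x.1.1.1, x.1.1.2.1), x.1.2 true), x.1.1.2.2),
        fun _ => x.1.2 false), ?_⟩)
      (fun S _ _ x => ⟨((x.1.1.1.1.1, (x.1.1.1.1.2, x.1.1.2)), fun b => cond b x.1.1.1.2 (x.1.2 ())),
        ?_⟩) ?_ ?_ ?_ ?_
    · have hx : (ug Y u (gg g g')).fn x.1.1 * ∏ i, x.1.2 i ^ a i = 1 := x.2
      rw [Fintype.prod_bool] at hx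
      show u.fn x.1.1.1 * g.fn x.1.1.2.1 * x.1.2 true ^ e * g'.fn x.1.1.2.2 *
        ∏ i : Unit, x.1.2 false ^ e' = 1
      rw [Fintype.prod_unique]
      have hx' : u.fn x.1.1.1 * (g.fn x.1.1.2.1 * g'.fn x.1.1.2.2) *
        (x.1.2 true ^ e * x.1.2 false ^ e') = 1 := hx
      rw [← hx']
      ring
    · have hx : u.fn x.1.1.1.1.1 * g.fn x.1.1.1.1.2 * x.1.1.1.2 ^ e * g'.fn x.1.1.2 *
        ∏ i : Unit, x.1.2 i ^ e' = 1 := x.2
      rw [Fintype.prod_unique] at hx
      show u.fn x.1.1.1.1.1 * (g.fn x.1.1.1.1.2 * g'.fn x.1.1.2) *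
        ∏ i : Bool, (cond i x.1.1.1.2 (x.1.2 ())) ^ (cond i e e') = 1
      rw [Fintype.prod_bool]
      have hx' : u.fn x.1.1.1.1.1 * g.fn x.1.1.1.1.2 * x.1.1.1.2 ^ e * g'.fn x.1.1.2 *
        (x.1.2 ()) ^ e' = 1 := hx
      rw [← hx']
      show _ * (x.1.1.1.2 ^ e * x.1.2 () ^ e') = _
      ring
    · intro S _ _ x
      refine Subtype.ext (Prod.ext rfl ?_)
      funext b
      cases b <;> rfl
    · intro S _ _ x
      rfl
    · intro S S' _ _ _ _ φ c x
      rfl
    · intro S _ _ x b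
      rfl
  rw [← h2, h1]
  have hc : Fintype.card Bool - 1 = 1 := rfl
  rw [hc, pow_one]
  congr 1
  refine congrArg χ.χ (TT_congr _ _ ?_ ?_ _ _)
  · funext _
    exact hg
  · funext _
    rw [hg, Fintype.sum_bool]
    rfl

end Pool.Agent.NDM.H97
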