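import Pool.Agent.Helper78_NDM.Dn1
import Pool.Agent.Helper32_NDM.Top
import Pool.Agent.Helper32_OMP.Loc0
import Pool.Agent.Helper6_Mono.Van

/-!
# Module ZRA (squad NDM): rationality
-/

set_option autoImplicit false
set_option linter.unusedVariables false
set_option linter.unusedSectionVars false

namespace Pool.Agent.NDM.H97

open PowerSeries Finset Pool.Agent.Helper6_Mono Pool.Agent.Helper32_OMP

section

variable {k : Type} [Field k] {σ ι : Type} [Fintype σ]

theorem FT_ZZ [Fintype ι] (a : ι → MvPolynomial σ k) (F : Finset ι) : FT (ZZ a F).F := by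
  classical
  have h1 : FT ((affY k σ (0 : QZ)).tor (wf := fun _ : ι => (0 : QZ)) (fun i =>
      ⟨fun x => MvPolynomial.aeval x (a i), fun φ c x => aeval_tw (hom_zero (a i)) φ c x⟩) univ
      (univ \ F)).F := FT.tor (FT.affY 0) _ _ _
  refine FT.of_equiv (F := (ZZ a F).F) (G := ((affY k σ (0 : QZ)).tor
      (wf := fun _ : ι => (0 : QZ)) (fun i => ⟨fun x => MvPolynomial.aeval x (a i),
        fun φ c x => aeval_tw (hom_zero (a i)) φ c x⟩) univ (univ \ F)).F) ⟨fun S _ _ =>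
    { toFun := fun x => ⟨x.1, fun i _ => ⟨fun h => (x.2 i).2 (Finset.mem_sdiff.1 h).2,
        fun h => (x.2 i).1 (by
          by_contra h'
          exact h (Finset.mem_sdiff.2 ⟨Finset.mem_univ _, h'⟩))⟩⟩
      invFun := fun x => ⟨x.1, fun i => ⟨fun h => (x.2 i (Finset.mem_univ _)).2 (fun h' =>
        (Finset.mem_sdiff.1 h').2 h), fun h => (x.2 i (Finset.mem_univ _)).1
          (Finset.mem_sdiff.2 ⟨Finset.mem_univ _, h⟩)⟩⟩
      left_inv := fun x => rfl
      right_inv := fun x => rfl }, fun φ c x => rfl⟩ h1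

theorem lpk_ne (P : MvPolynomial σ k) (hP : P.totalDegree = 1) : lpk P ≠ 0 := by
  classical
  intro h
  have h1 := H32.deg_one_k P hP.le
  rw [h] at h1
  have h2 : ∑ l : σ, MvPolynomial.C ((0 : σ → k) l) * MvPolynomial.X l
      = (0 : MvPolynomial σ k) := by
    refine Finset.sum_eq_zero fun l _ => ?_
    rw [Pi.zero_apply, map_zero, zero_mul]
  rw [h2, add_zero] at h1
  rw [h1, MvPolynomial.totalDegree_C] at hP
  exact zero_ne_one hP

end

theorem zra (hD : DatStmt) (hTop : TopStmt) (hZ : ZemStmt) : ZraStmt := by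
  intro k _ _ σ ι _ _ _ R _ L0 χ a ha m hm c hc
  have hL : ∀ i, lpk (a i) ≠ 0 := fun i => lpk_ne (a i) (ha i)
  obtain ⟨T, hT⟩ : ∃ T : Set ℚ, T = {q | ∃ (z : σ → ℂ) (F W : Finset ι),
        (∀ i, MvPolynomial.aeval z (a i) = 0 ↔ i ∈ F) ∧ W.Nonempty ∧
        ClIn (fun i => lpk (a i)) F W ∧ ConnS (fun i => lpk (a i)) W ∧
        q = (rk (fun i => lpk (a i)) W : ℚ) / ((∑ i ∈ W, m i : ℕ) : ℚ)} := ⟨_, rfl⟩
  have key : ∀ F : Finset ι, ∃ s : ℕ → R, F.Nonempty → RP L0 (steps T) s ∧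
      ∀ (M : ℕ) (hM : M ≠ 0) (hω : M • om M = 0), s M = Li L0 ^ (Fintype.card σ * M) *
        χ.χ (JJ (fun i => lpk (a i)) m F M (om M) 0 (ZZ a F) (uZ a m c F) (hZ0 _ M hω)) := by
    intro F
    by_cases hF : F.Nonempty
    swap
    · exact ⟨fun _ => 0, fun h => absurd h hF⟩
    by_cases hz : ∃ z : σ → ℂ, ∀ i, MvPolynomial.aeval z (a i) = 0 ↔ i ∈ F
    · obtain ⟨z, hz⟩ := hz
      obtain ⟨D, hD'⟩ := hD k σ ι R L0 (fun i => lpk (a i)) m hm F hF (fun i _ => hL i)
      let _ := D.fin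
      have h0 : ∀ b : D.Λ, (0 : QZ) + D.e b • om (D.e b) = 0 := fun b => by
        rw [zero_add]
        exact om_smul (D.epos b).ne'
      refine ⟨fun M => ∑ b : D.Λ, χ.χ (EE (ZZ a F) (uZ a m c F) (D.P b) (D.g b) (D.e b)
        (om (D.e b)) (h0 b)) * (if D.e b ∣ M then D.c b M else 0), fun _ => ⟨?_, ?_⟩⟩
      · refine RP.sum _ fun b _ => RP.smul _ ((H78.RP_ind (D.rp b) (D.epos b)).mono ?_)
        rintro p ⟨hp1, W, hW1, hW2, hW3, hW4⟩
        refine ⟨hp1, ?_⟩
        rw [hT]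
        exact ⟨z, F, W, hz, hW1, hW2, hW3, hW4⟩
      · intro M hM hω
        rw [hD' σ (fun _ => 0) χ (ZZ a F) (FT_ZZ a F) 0 (uZ a m c F) M (om M) 0 (hZ0 _ M hω)]
        unfold Dat.val
        refine Finset.sum_congr rfl fun b _ => ?_
        by_cases he : D.e b ∣ M
        · rw [if_pos he, dif_pos he, mul_comm]
          congr 1
          refine H78.EE_congr χ _ _ _ _ _ ?_ _ _
          rw [smul_zero, zero_add]
          exact (om_mul hM (Nat.mul_div_cancel' he)).symm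
        · rw [if_neg he, dif_neg he, mul_zero]
    · refine ⟨fun _ => 0, fun _ => ⟨RP.zero, fun M hM hω => ?_⟩⟩
      rw [χ.empty (FT_JJ _ _ _ _ _ _ (FT_ZZ a F) _ _)
        (fun S _ _ x => hZ k σ ι a F (fun z h => hz ⟨z, h⟩) S x.1.1), mul_zero]
  choose s hs using key
  refine ⟨fun M => if M = 0 then 0 else ∑ F ∈ (univ : Finset (Finset ι)).erase ∅, s F M,
    if_pos rfl, ?_, ?_⟩
  · rw [← hT]
    have hsum : RP L0 (steps T) (fun M => ∑ F ∈ (univ : Finset (Finset ι)).erase ∅, s F M) :=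
      RP.sum _ fun F hF => (hs F (Finset.nonempty_iff_ne_empty.2 (Finset.mem_erase.1 hF).1)).1
    refine RP.of_shift 1 ((hsum.shift 1).congr fun M => ?_)
    rw [if_neg (Nat.succ_ne_zero M)]
  · intro M hM hω
    show (if M = 0 then 0 else ∑ F ∈ (univ : Finset (Finset ι)).erase ∅, s F M) = _
    rw [if_neg hM, hTop k σ ι R L0 χ a ha m hm c hc M hM hω, Finset.mul_sum, mul_comm M]
    exact Finset.sum_congr rfl fun F hF => (hs F (Finset.nonempty_iff_ne_empty.2
      (Finset.mem_erase.1 hF).1)).2 M hM hω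

end Pool.Agent.NDM.H97
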